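import Pool.Agent.H82.KT.TC

set_option autoImplicit false

namespace Pool.Agent.H53.KTN

open Pool.Agent.H82.KT Finset

open scoped Classical in
lemma quad_count {τ : Type} (S : Finset ((τ × τ) × (τ × τ))) (A₀ G : Finset τ)
    (A₁ A₂ A₃ : τ → Finset τ) (N₀ N₁ N₂ N₃ : ℝ) (h0 : (A₀.card : ℝ) ≤ N₀)
    (hN₁ : 0 ≤ N₁) (hN₂ : 0 ≤ N₂) (hN₃ : 0 ≤ N₃) (hA₀ : A₀ ⊆ G) (hA₁ : ∀ g ∈ G, A₁ g ⊆ G)
    (hA₂ : ∀ g ∈ G, A₂ g ⊆ G)
    (h1 : ∀ g ∈ G, ((A₁ g).card : ℝ) ≤ N₁) (h2 : ∀ g ∈ G, ((A₂ g).card : ℝ) ≤ N₂)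
    (h3 : ∀ g ∈ G, ((A₃ g).card : ℝ) ≤ N₃)
    (hS : ∀ q ∈ S, q.1.1 ∈ A₀ ∧ q.1.2 ∈ A₁ q.1.1 ∧ q.2.1 ∈ A₂ q.1.2 ∧ q.2.2 ∈ A₃ q.2.1) :
    (S.card : ℝ) ≤ N₀ * (N₁ * (N₂ * N₃)) := by
  have hsub : S ⊆ A₀.biUnion fun g0 => (A₁ g0).biUnion fun g1 => (A₂ g1).biUnion fun g2 =>
      (A₃ g2).image fun g3 => ((g0, g1), (g2, g3)) := by
    intro q hq
    obtain ⟨a, b, c, d⟩ := hS q hq
    simp only [mem_biUnion, mem_image]
    exact ⟨q.1.1, a, q.1.2, b, q.2.1, c, q.2.2, d, rfl⟩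
  have hcard : S.card ≤ ∑ g0 ∈ A₀, ∑ g1 ∈ A₁ g0, ∑ g2 ∈ A₂ g1, (A₃ g2).card := by
    refine (card_le_card hsub).trans (card_biUnion_le.trans (sum_le_sum fun g0 _ => ?_))
    refine card_biUnion_le.trans (sum_le_sum fun g1 _ => ?_)
    refine card_biUnion_le.trans (sum_le_sum fun g2 _ => card_image_le)
  have hcard' : (S.card : ℝ) ≤ ∑ g0 ∈ A₀, ∑ g1 ∈ A₁ g0, ∑ g2 ∈ A₂ g1, ((A₃ g2).card : ℝ) := by
    exact_mod_cast hcard
  refine hcard'.trans ?_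
  have b2 : ∀ g1 ∈ G, ∑ g2 ∈ A₂ g1, ((A₃ g2).card : ℝ) ≤ N₂ * N₃ := by
    intro g1 hg1
    calc ∑ g2 ∈ A₂ g1, ((A₃ g2).card : ℝ) ≤ ∑ _g2 ∈ A₂ g1, N₃ :=
          sum_le_sum fun g2 hg2 => h3 g2 (hA₂ g1 hg1 hg2)
      _ = (A₂ g1).card * N₃ := by rw [sum_const, nsmul_eq_mul]
      _ ≤ N₂ * N₃ := mul_le_mul_of_nonneg_right (h2 g1 hg1) hN₃
  have b1 : ∀ g0 ∈ G, ∑ g1 ∈ A₁ g0, ∑ g2 ∈ A₂ g1, ((A₃ g2).card : ℝ) ≤ N₁ * (N₂ * N₃) := by
    intro g0 hg0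
    calc ∑ g1 ∈ A₁ g0, ∑ g2 ∈ A₂ g1, ((A₃ g2).card : ℝ) ≤ ∑ _g1 ∈ A₁ g0, N₂ * N₃ :=
          sum_le_sum fun g1 hg1 => b2 g1 (hA₁ g0 hg0 hg1)
      _ = (A₁ g0).card * (N₂ * N₃) := by rw [sum_const, nsmul_eq_mul]
      _ ≤ N₁ * (N₂ * N₃) := mul_le_mul_of_nonneg_right (h1 g0 hg0) (mul_nonneg hN₂ hN₃)
  calc ∑ g0 ∈ A₀, ∑ g1 ∈ A₁ g0, ∑ g2 ∈ A₂ g1, ((A₃ g2).card : ℝ)
      ≤ ∑ _g0 ∈ A₀, N₁ * (N₂ * N₃) := sum_le_sum fun g0 hg0 => b1 g0 (hA₀ hg0)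
    _ = A₀.card * (N₁ * (N₂ * N₃)) := by rw [sum_const, nsmul_eq_mul]
    _ ≤ N₀ * (N₁ * (N₂ * N₃)) :=
        mul_le_mul_of_nonneg_right h0 (mul_nonneg hN₁ (mul_nonneg hN₂ hN₃))

open scoped Classical in
theorem pf_QUB (hSEP : T_SEP) (hIDN : T_IDN) (hBOX : T_BOX) : T_QUB := by
  intro ι _ τ G P V Y yy m J E L ω ρ μ f s x a b a' b' hJ hE hL hω hω1 hρ hρJ hμ hf hsix hPat
    hG hfar hfl
  obtain ⟨⟨hA1, hA2, hA3, hA4⟩, ⟨hB1, hB2, hB3, hB4⟩, hPh, haa⟩ := id hPat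
  have hs : s ∈ six s x a b a' b' := by simp [six]
  have hx : x ∈ six s x a b a' b' := by simp [six]
  have ha : a ∈ six s x a b a' b' := by simp [six]
  have hb : b ∈ six s x a b a' b' := by simp [six]
  have ha' : a' ∈ six s x a b a' b' := by simp [six]
  have hb' : b' ∈ six s x a b a' b' := by simp [six]
  set Q := ((G ×ˢ G) ×ˢ (G ×ˢ G)).filter fun q => yy q.1.1 s = yy q.1.2 s ∧
      yy q.1.2 b = yy q.2.1 b ∧ yy q.2.1 s = yy q.2.2 s ∧ yy q.2.2 a' = yy q.1.1 a' with hQ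
  set N₀ : ℝ := (32 * (E + L) / ω ^ 2) ^ Fintype.card ι * f with hN₀
  set N₁ : ℝ := μ * (1 / ω) ^ m with hN₁
  set N₂ : ℝ := μ * (2 / (ρ * ω ^ 2)) ^ m with hN₂
  have hE0 : 0 ≤ E := by linarith
  have hN₀0 : 0 ≤ N₀ := by positivity
  have hN₁0 : 0 ≤ N₁ := by positivity
  have hN₂0 : 0 ≤ N₂ := by positivity
  have hωJ : 0 < ω * J := by positivity
  -- the bound of the fibres
  have hfib : ∀ y ∈ Y x ×ˢ (Y b' ×ˢ Y a),
      ((Q.filter fun q => (yy q.1.2 x, (yy q.2.1 b', yy q.2.2 a)) = y).card : ℝ) ≤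
        N₀ * (N₁ * (N₂ * N₁)) := by
    rintro ⟨y1, y2, y3⟩ hy
    simp only [mem_product] at hy
    obtain ⟨hy1, hy2, hy3⟩ := hy
    set c : ι → ℝ := fun i => J * ((y1 i : ℝ) - y3 i + ((s : ℝ) - x) / (b - x) *
      ((y2 i : ℝ) - y1 i) - ((a' : ℝ) - a) / (s - a) * ((y2 i : ℝ) - y3 i)) / ((s : ℝ) - a')
      with hc
    set r : ℝ := (12 * E + L) / ω ^ 2 with hr
    have hr0 : 0 ≤ r := by positivity
    have hsa' : ω * J < |(s : ℝ) - a'| := by rw [abs_sub_comm]; exact hB2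
    have hA0card : ((G.filter fun g => ∀ i, |J * V g i - c i| ≤ r).card : ℝ) ≤ N₀ := by
      have h := hBOX ι τ (G.filter fun g => ∀ i, |J * V g i - c i| ≤ r) (fun g i => J * V g i) c r
        f hr0 hf ?_ ?_
      · refine h.trans ?_
        refine mul_le_mul_of_nonneg_right (pow_le_pow_left₀ (by positivity) ?_ _) hf
        have hω2 : 0 < ω ^ 2 := by positivity
        have hω2' : ω ^ 2 ≤ 1 := pow_le_one₀ hω.le hω1
        rw [hr, le_div_iff₀ hω2]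
        have : (2 * ((12 * E + L) / ω ^ 2) + 2) * ω ^ 2 = 2 * (12 * E + L) + 2 * ω ^ 2 := by
          field_simp
        rw [this]
        nlinarith
      · intro w
        refine le_trans ?_ (hfl w)
        exact_mod_cast card_le_card (by
          intro g hg
          simp only [mem_filter] at hg ⊢
          exact ⟨hg.1.1, hg.2⟩)
      · intro g hg i
        exact (mem_filter.1 hg).2 i
    refine quad_count _ (G.filter fun g => ∀ i, |J * V g i - c i| ≤ r) G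
      (fun g => G.filter fun g' => Nr E (P g') (V g') s (yy g s) ∧ Nr E (P g') (V g') x y1)
      (fun g => G.filter fun g' => Nr E (P g') (V g') b (yy g b) ∧ Nr E (P g') (V g') b' y2)
      (fun g => G.filter fun g' => Nr E (P g') (V g') s (yy g s) ∧ Nr E (P g') (V g') a y3)
      N₀ N₁ N₂ N₁ hA0card hN₁0 hN₂0 hN₁0 (filter_subset _ _) (fun g _ => filter_subset _ _)
      (fun g _ => filter_subset _ _) ?_ ?_ ?_ ?_
    · intro g hg
      exact hfar s hs x hx ω hω hA1.le _ ((hG g hg).2 s hs).1 _ hy1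
    · intro g hg
      have h := hfar b hb b' hb' (ρ * ω ^ 2 / 2) (by positivity)
        (hSEP J ω ρ s x a b a' b' hJ hω hω1 hρ hρJ hsix hPat) _ ((hG g hg).2 b hb).1 _ hy2
      have he : 1 / (ρ * ω ^ 2 / 2) = 2 / (ρ * ω ^ 2) := by rw [one_div_div]
      rwa [he] at h
    · intro g hg
      have hsa : ω * J ≤ |(s : ℝ) - a| := by rw [abs_sub_comm]; exact hA2.le
      exact hfar s hs a ha ω hω hsa _ ((hG g hg).2 s hs).1 _ hy3
    · intro q hq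
      simp only [hQ, mem_filter, mem_product] at hq
      obtain ⟨⟨⟨⟨hg0, hg1⟩, hg2, hg3⟩, e1, e2, e3, e4⟩, hqy⟩ := hq
      simp only [Prod.mk.injEq] at hqy
      obtain ⟨hz1, hz2, hz3⟩ := hqy
      have n0 := (hG _ hg0).2
      have n1 := (hG _ hg1).2
      have n2 := (hG _ hg2).2
      have n3 := (hG _ hg3).2
      refine ⟨?_, ?_, ?_, ?_⟩
      · rw [mem_filter]
        refine ⟨hg0, fun i => ?_⟩
        have key := hIDN J ω ρ E L s x a b a' b'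
          ![P q.1.1 i, P q.1.2 i, P q.2.1 i, P q.2.2 i] ![V q.1.1 i, V q.1.2 i, V q.2.1 i, V q.2.2 i]
          (y1 i) (y2 i) (y3 i) hJ hω hω1 hE0 hL hsix hPat
        have p0 : (![P q.1.1 i, P q.1.2 i, P q.2.1 i, P q.2.2 i] : Fin 4 → ℝ) 0 = P q.1.1 i := rfl
        have p1 : (![P q.1.1 i, P q.1.2 i, P q.2.1 i, P q.2.2 i] : Fin 4 → ℝ) 1 = P q.1.2 i := rfl
        have p2 : (![P q.1.1 i, P q.1.2 i, P q.2.1 i, P q.2.2 i] : Fin 4 → ℝ) 2 = P q.2.1 i := rfl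
        have p3 : (![P q.1.1 i, P q.1.2 i, P q.2.1 i, P q.2.2 i] : Fin 4 → ℝ) 3 = P q.2.2 i := rfl
        have v0 : (![V q.1.1 i, V q.1.2 i, V q.2.1 i, V q.2.2 i] : Fin 4 → ℝ) 0 = V q.1.1 i := rfl
        have v1 : (![V q.1.1 i, V q.1.2 i, V q.2.1 i, V q.2.2 i] : Fin 4 → ℝ) 1 = V q.1.2 i := rfl
        have v2 : (![V q.1.1 i, V q.1.2 i, V q.2.1 i, V q.2.2 i] : Fin 4 → ℝ) 2 = V q.2.1 i := rfl
        have v3 : (![V q.1.1 i, V q.1.2 i, V q.2.1 i, V q.2.2 i] : Fin 4 → ℝ) 3 = V q.2.2 i := rfl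
        rw [p0, p1, p2, p3, v0, v1, v2, v3] at key
        have a1 := (n0 s hs).2 i
        have a2 := (n1 s hs).2 i
        have a3 := (n1 b hb).2 i
        have a4 := (n2 b hb).2 i
        have a5 := (n2 s hs).2 i
        have a6 := (n3 s hs).2 i
        have a7 := (n3 a' ha').2 i
        have a8 := (n0 a' ha').2 i
        have a9 := (n1 x hx).2 i
        have a10 := (n2 b' hb').2 i
        have a11 := (n3 a ha).2 i
        rw [e1] at a1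
        rw [e2] at a3
        rw [e3] at a5
        rw [e4] at a7
        rw [hz1] at a9
        rw [hz2] at a10
        rw [hz3] at a11
        have tri : ∀ u v w : ℝ, |u - w| ≤ E → |v - w| ≤ E → |u - v| ≤ 2 * E := by
          intro u v w h1 h2
          rw [abs_le] at h1 h2 ⊢
          constructor <;> linarith [h1.1, h1.2, h2.1, h2.2]
        have key2 := key (tri _ _ _ a1 a2) (tri _ _ _ a3 a4) (tri _ _ _ a5 a6) (tri _ _ _ a7 a8)
          a9 a10 a11 ((hG _ hg2).1 i)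
        have hne : (s : ℝ) - a' ≠ 0 := by
          intro h0
          rw [h0, abs_zero] at hsa'
          linarith
        have habs : 0 < |(s : ℝ) - a'| := abs_pos.2 hne
        have heq : J * V q.1.1 i - c i = J / ((s : ℝ) - a') * (((s : ℝ) - a') * V q.1.1 i -
            ((y1 i : ℝ) - y3 i + ((s : ℝ) - x) / (b - x) * ((y2 i : ℝ) - y1 i) -
              ((a' : ℝ) - a) / (s - a) * ((y2 i : ℝ) - y3 i))) := by
          have aux : ∀ K W : ℝ, J * W - J * K / ((s : ℝ) - a') =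
              J / ((s : ℝ) - a') * (((s : ℝ) - a') * W - K) := by
            intro K W
            field_simp
          exact aux _ _
        rw [heq, abs_mul, abs_div, abs_of_pos hJ]
        have h5 : J / |(s : ℝ) - a'| ≤ 1 / ω := by
          rw [div_le_div_iff₀ habs hω]
          linarith
        calc J / |(s : ℝ) - a'| * _ ≤ 1 / ω * ((12 * E + L) / ω) :=
              mul_le_mul h5 key2 (abs_nonneg _) (by positivity)
          _ = r := by rw [hr]; field_simp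
      · rw [mem_filter]
        refine ⟨hg1, ?_, ?_⟩
        · rw [e1]; exact (n1 s hs).2
        · rw [← hz1]; exact (n1 x hx).2
      · rw [mem_filter]
        refine ⟨hg2, ?_, ?_⟩
        · rw [e2]; exact (n2 b hb).2
        · rw [← hz2]; exact (n2 b' hb').2
      · rw [mem_filter]
        refine ⟨hg3, ?_, ?_⟩
        · rw [e3]; exact (n3 s hs).2
        · rw [← hz3]; exact (n3 a ha).2
  have hmaps : ∀ q ∈ Q, (yy q.1.2 x, (yy q.2.1 b', yy q.2.2 a)) ∈ Y x ×ˢ (Y b' ×ˢ Y a) := by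
    intro q hq
    simp only [hQ, mem_filter, mem_product] at hq
    obtain ⟨⟨⟨hg0, hg1⟩, hg2, hg3⟩, -⟩ := hq
    simp only [mem_product]
    exact ⟨((hG _ hg1).2 x hx).1, ((hG _ hg2).2 b' hb').1, ((hG _ hg3).2 a ha).1⟩
  have hsum := card_eq_sum_card_fiberwise (f := fun q : (τ × τ) × (τ × τ) =>
    (yy q.1.2 x, (yy q.2.1 b', yy q.2.2 a))) (s := Q) (t := Y x ×ˢ (Y b' ×ˢ Y a)) hmaps
  have hsum' : (Q.card : ℝ) ≤ ((Y x ×ˢ (Y b' ×ˢ Y a)).card : ℝ) * (N₀ * (N₁ * (N₂ * N₁))) := by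
    rw [hsum]
    push_cast
    calc ∑ y ∈ Y x ×ˢ (Y b' ×ˢ Y a), ((Q.filter fun q : (τ × τ) × (τ × τ) =>
          (yy q.1.2 x, (yy q.2.1 b', yy q.2.2 a)) = y).card : ℝ)
        ≤ ∑ _y ∈ Y x ×ˢ (Y b' ×ˢ Y a), N₀ * (N₁ * (N₂ * N₁)) := sum_le_sum hfib
      _ = _ := by rw [sum_const, nsmul_eq_mul]
  refine hsum'.trans (le_of_eq ?_)
  rw [card_product, card_product, hN₀, hN₁, hN₂]
  push_cast
  ring

end Pool.Agent.H53.KTN
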